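import Mathlib
import Pool.Agent.V1147.LSSRing
import Pool.Agent.V1147.EmbPrime

set_option autoImplicit false

namespace Pool.Agent.Results.MP_e1e5e2_ag.EmbeddedComponent

open MvPolynomial

/-- the `d`-th Lovász–Saks–Schrijver ideal of the graph `G` on `n` vertices -/
noncomputable def LSS (K : Type*) [Field K] (d : ℕ) {n : ℕ} (G : SimpleGraph (Fin n)) :
    Ideal (MvPolynomial (Fin d × Fin n) K) :=
  Ideal.span {f | ∃ j k, G.Adj j k ∧ f = ∑ i, X (i, j) * X (i, k)}

/-- `P` is an associated prime of (the quotient by) the ideal `I`: a prime ideal of the form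
`(I : f)` -/
def IsAssociatedPrimeOf {S : Type*} [CommRing S] (I P : Ideal S) : Prop :=
  P.IsPrime ∧ ∃ f : S, ∀ s : S, s ∈ P ↔ s * f ∈ I

/-- `P` is an embedded associated prime of `I`: an associated prime which properly contains
another associated prime -/
def IsEmbeddedPrimeOf {S : Type*} [CommRing S] (I P : Ideal S) : Prop :=
  IsAssociatedPrimeOf I P ∧ ∃ Q : Ideal S, IsAssociatedPrimeOf I Q ∧ Q < P

/-- The bipartite incidence graph with five points `0, …, 4` and six lines `5, …, 10`. -/
def graph : SimpleGraph (Fin 11) := SimpleGraph.fromEdgeSet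
  {s(0, 5), s(0, 6), s(0, 9), s(0, 10), s(1, 5), s(1, 7), s(1, 9), s(1, 10), s(2, 6), s(2, 7),
    s(2, 8), s(3, 5), s(3, 8), s(4, 8), s(4, 9)}

open Pool.Agent.V1147.LSS Pool.Agent.V1147.Emb

theorem adj_iff (j k : Fin 11) :
    graph.Adj j k ↔ ∃ x ∈ edges, (j = x.1 ∧ k = x.2) ∨ (j = x.2 ∧ k = x.1) := by
  rw [graph, SimpleGraph.fromEdgeSet_adj]
  simp only [Set.mem_insert_iff, Set.mem_singleton_iff, Sym2.eq_iff, edges, List.mem_cons,
    List.not_mem_nil, or_false, exists_eq_or_imp, exists_eq_left]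
  refine ⟨fun h => h.1, fun h => ⟨h, ?_⟩⟩
  rintro rfl
  rcases h with (h | h) | (h | h) | (h | h) | (h | h) | (h | h) | (h | h) | (h | h) | (h | h) |
    (h | h) | (h | h) | (h | h) | (h | h) | (h | h) | (h | h) | (h | h) <;>
  exact absurd (h.1.symm.trans h.2) (by decide)

section

variable (K : Type*) [Field K]

noncomputable abbrev vv (i : Fin 3) (j : Fin 11) : MvPolynomial (Fin 3 × Fin 11) K := X (i, j)

/-- a homomorphism kills the ideal iff it kills the fifteen generators -/
theorem LSS_le_ker {B : Type*} [CommRing B] (φ : MvPolynomial (Fin 3 × Fin 11) K →+* B)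
    (h : ∀ x ∈ edges, dp (fun i j => φ (X (i, j))) x.1 x.2 = 0) :
    LSS K 3 graph ≤ RingHom.ker φ := by
  rw [LSS, Ideal.span_le]
  rintro f ⟨j, k, hjk, rfl⟩
  rw [adj_iff] at hjk
  obtain ⟨x, hx, hx'⟩ := hjk
  have h1 := h x hx
  simp only [dp] at h1
  rw [SetLike.mem_coe, RingHom.mem_ker, Fin.sum_univ_three]
  simp only [map_add, map_mul]
  rcases hx' with ⟨rfl, rfl⟩ | ⟨rfl, rfl⟩
  · exact h1
  · linear_combination h1

theorem edge_mem (x : Fin 11 × Fin 11) (hx : x ∈ edges) : dp (vv K) x.1 x.2 ∈ LSS K 3 graph := by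
  apply Ideal.subset_span
  refine ⟨x.1, x.2, ?_, ?_⟩
  · rw [adj_iff]
    exact ⟨x, hx, Or.inl ⟨rfl, rfl⟩⟩
  · rw [Fin.sum_univ_three]
    rfl

theorem map_dp {A B : Type*} [CommRing A] [CommRing B] (φ : A →+* B) (v : Fin 3 → Fin 11 → A)
    (j k : Fin 11) : φ (dp v j k) = dp (fun i j => φ (v i j)) j k := by
  simp [dp]

theorem map_GG {A B : Type*} [CommRing A] [CommRing B] (φ : A →+* B) (v : Fin 3 → Fin 11 → A) :
    φ (GG v) = GG (fun i j => φ (v i j)) := by
  simp [GG, dp]

theorem XC_zero {A : Type*} [CommRing A] (c : A)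
    (h : Polynomial.X * Polynomial.C c = (0 : Polynomial A)) : c = 0 := by
  have h1 := congrArg (fun q => Polynomial.coeff q 1) h
  simpa using h1

theorem GG_zero {A : Type*} [CommRing A] (v : Fin 3 → Fin 11 → A) (h : dp v 3 6 = 0) :
    GG v = 0 := by
  unfold GG
  rw [h, mul_zero]

theorem edges_ten : ∀ x ∈ edges, x.1 ≠ 10 ∧ (x.2 = 10 → x.1 = 0 ∨ x.1 = 1) := by
  intro y hy
  simp only [edges, List.mem_cons, List.not_mem_nil, or_false] at hy
  rcases hy with rfl | rfl | rfl | rfl | rfl | rfl | rfl | rfl | rfl | rfl | rfl | rfl | rfl |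
    rfl | rfl <;> decide

/-- the configuration over the dual numbers -/
def conf {B : Type*} [CommRing B] (x : B) : Fin 3 → Fin 11 → B :=
  ![![1, 1, 1, 0, 1, 0, 0, -x, -x, 0, 0],
    ![0, x, 0, 1, 1, 0, 1, 1, 0, -x, 0],
    ![0, 0, x, 0, x, 1, 0, 1, 1, 1, 1]]

theorem conf_edges {B : Type*} [CommRing B] (x : B) (hx : x * x = 0) :
    ∀ y ∈ edges, dp (conf x) y.1 y.2 = 0 := by
  intro y hy
  simp only [edges, List.mem_cons, List.not_mem_nil, or_false] at hy
  rcases hy with rfl | rfl | rfl | rfl | rfl | rfl | rfl | rfl | rfl | rfl | rfl | rfl | rfl |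
    rfl | rfl <;> simp [dp, conf, hx]

end

/-- **Lovász–Saks–Schrijver ideals can have embedded components.** For every field `K` (of any
characteristic) the ideal `LSS(3, 𝒢)` of the above bipartite graph `𝒢` on `11` vertices with
`15` edges has an embedded associated prime. -/
theorem result (K : Type*) [Field K] :
    ∃ P : Ideal (MvPolynomial (Fin 3 × Fin 11) K), IsEmbeddedPrimeOf (LSS K 3 graph) P := by
  set I := LSS K 3 graph with hI
  have hmem : ∀ x ∈ edges, dp (fun i j => Ideal.Quotient.mk I (vv K i j)) x.1 x.2 = 0 := by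
    intro x hx
    rw [← map_dp, Ideal.Quotient.eq_zero_iff_mem]
    exact edge_mem K x hx
  obtain ⟨f1, f2⟩ := final _ hmem
  have h1 : GG (vv K) * (dp (vv K) 1 6 * dp (vv K) 1 6) ∈ I := by
    rw [← Ideal.Quotient.eq_zero_iff_mem, map_mul, map_mul, map_GG, map_dp]
    exact f1
  have h2 : GG (vv K) * (dp (vv K) 1 6 * dp (vv K) 3 10) ∈ I := by
    rw [← Ideal.Quotient.eq_zero_iff_mem, map_mul, map_mul, map_GG, map_dp, map_dp]
    exact f2
  have h3 : ∀ n : ℕ, dp (vv K) 1 6 * GG (vv K) ^ n ∉ I := by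
    intro n hn
    have hε : (DualNumber.eps : DualNumber K) * DualNumber.eps = 0 := DualNumber.eps_mul_eps
    let φ : MvPolynomial (Fin 3 × Fin 11) K →+* DualNumber K :=
      eval₂Hom (algebraMap K (DualNumber K)) (fun x => conf DualNumber.eps x.1 x.2)
    have hφ : ∀ i j, φ (X (i, j)) = conf DualNumber.eps i j := by
      intro i j
      simp [φ]
    have h4 : I ≤ RingHom.ker φ := by
      apply LSS_le_ker
      have h5 : (fun i j => φ (X (i, j))) = conf (DualNumber.eps : DualNumber K) := by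
        funext i j
        exact hφ i j
      rw [h5]
      exact conf_edges _ hε
    have h5 := h4 hn
    rw [RingHom.mem_ker, map_mul, map_pow, map_dp, map_GG] at h5
    have h6 : (fun i j => φ (vv K i j)) = conf (DualNumber.eps : DualNumber K) := by
      funext i j
      exact hφ i j
    rw [h6] at h5
    have h7 : dp (conf (DualNumber.eps : DualNumber K)) 1 6 = DualNumber.eps := by
      simp [dp, conf]
    have h8 : GG (conf (DualNumber.eps : DualNumber K)) * GG (conf (DualNumber.eps)) = 1 := by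
      simp [GG, dp, conf]
    have h9 : (DualNumber.eps : DualNumber K) = 0 := by
      have h10 : DualNumber.eps * GG (conf (DualNumber.eps : DualNumber K)) ^ n *
          GG (conf (DualNumber.eps : DualNumber K)) ^ n = DualNumber.eps := by
        rw [mul_assoc, ← mul_pow, h8, one_pow, mul_one]
      rw [← h10]
      rw [h7] at h5
      rw [h5, zero_mul]
    have h11 := congrArg TrivSqZeroExt.snd h9
    simp at h11
  obtain ⟨P, hP, hG, hX, hY⟩ := exists_assoc I _ _ _ h1 h2 h3
  refine ⟨P, hP, ?_⟩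
  have hPp : P.IsPrime := hP.1
  -- the deformation
  let mk := Ideal.Quotient.mk P
  let ψ : MvPolynomial (Fin 3 × Fin 11) K →+* Polynomial (MvPolynomial (Fin 3 × Fin 11) K ⧸ P) :=
    eval₂Hom (Polynomial.C.comp (mk.comp C)) (fun x => Polynomial.C (mk (X x)) +
      if x.2 = 10 then Polynomial.X * Polynomial.C (mk (X (x.1, 6))) else 0)
  have hψ : ∀ i j, ψ (X (i, j)) = Polynomial.C (mk (X (i, j))) +
      if j = 10 then Polynomial.X * Polynomial.C (mk (X (i, 6))) else 0 := by
    intro i j
    simp [ψ]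
  have hIP : I ≤ P := by
    intro s hs
    obtain ⟨f, hf⟩ := hP.2
    rw [hf]
    exact Ideal.mul_mem_right _ _ hs
  have hmkdp : ∀ j k, dp (vv K) j k ∈ P → dp (fun i j => mk (vv K i j)) j k = 0 := by
    intro j k h
    rw [← map_dp, Ideal.Quotient.eq_zero_iff_mem]
    exact h
  have hedge : ∀ x ∈ edges, dp (fun i j => mk (vv K i j)) x.1 x.2 = 0 :=
    fun x hx => hmkdp _ _ (hIP (edge_mem K x hx))
  have h16 : dp (fun i j => mk (vv K i j)) 1 6 = 0 := hmkdp 1 6 hX
  have hgen : ∀ j k, j ≠ 10 → dp (fun i j => ψ (X (i, j))) j k =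
      Polynomial.C (dp (fun i j => mk (vv K i j)) j k) +
      if k = 10 then Polynomial.X * Polynomial.C (dp (fun i j => mk (vv K i j)) j 6) else 0 := by
    intro j k hj
    simp only [dp, hψ, if_neg hj, map_add, map_mul, vv]
    split_ifs <;> ring
  have hx3 := edges_ten
  have hIψ : I ≤ RingHom.ker ψ := by
    apply LSS_le_ker
    intro x hx
    have hx1 := hedge x hx
    have hx2 : x.1 ≠ 10 ∧ (x.2 = 10 → x.1 = 0 ∨ x.1 = 1) := hx3 x hx
    rw [hgen _ _ hx2.1, hx1, map_zero, zero_add]
    split_ifs with h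
    · rcases hx2.2 h with h' | h'
      · rw [h']
        have e06 := hedge (0, 6) (by decide)
        simp only at e06
        rw [e06, map_zero, mul_zero]
      · rw [h', h16, map_zero, mul_zero]
    · rfl
  have hev : ∀ s, Polynomial.eval 0 (ψ s) = mk s := by
    intro s
    have h4 : (Polynomial.evalRingHom 0).comp ψ = mk := by
      apply MvPolynomial.ringHom_ext
      · intro r
        simp [ψ]
      · intro x
        obtain ⟨i, j⟩ := x
        rw [RingHom.comp_apply, hψ]
        split_ifs <;> simp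
    rw [← h4]
    rfl
  have hlt : RingHom.ker ψ < P := by
    rw [lt_iff_le_and_ne]
    constructor
    · intro s hs
      rw [RingHom.mem_ker] at hs
      have h4 := hev s
      rw [hs, Polynomial.eval_zero] at h4
      exact Ideal.Quotient.eq_zero_iff_mem.1 h4.symm
    · intro heq
      rw [← heq, RingHom.mem_ker, map_dp] at hY
      have h4 := hgen 3 10 (by decide)
      rw [if_pos rfl] at h4
      change dp (fun i j => ψ (X (i, j))) 3 10 = 0 at hY
      have hY' : dp (fun i j => mk (vv K i j)) 3 10 = 0 := by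
        apply hmkdp
        rw [← heq, RingHom.mem_ker, map_dp]
        exact hY
      rw [hY, hY', map_zero, zero_add] at h4
      have h5 : dp (fun i j => mk (vv K i j)) 3 6 = 0 := by
        exact XC_zero _ h4.symm
      apply hG
      rw [← Ideal.Quotient.eq_zero_iff_mem]
      change mk (GG (vv K)) = 0
      rw [map_GG]
      exact GG_zero _ h5
  obtain ⟨Q, hQ, _, hQP⟩ := exists_assoc_lt I P (RingHom.ker ψ) (RingHom.ker_isPrime ψ) hIψ hlt
  exact ⟨Q, hQ, hQP⟩

end Pool.Agent.Results.MP_e1e5e2_ag.EmbeddedComponent
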